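import Pool.Agent.P.MP_d1c5d3_co.PG.Tree

/-! The breadth first tree of a connected set of cells. -/

set_option autoImplicit false

namespace Pool.Agent.P.MP_d1c5d3_co.PG

open Finset Relation
open scoped Classical

noncomputable section

variable {d : ℕ}

/-- connected sets through the origin in a half-space -/
structure Good (i : Fin d) (A : Finset (Fin d → ℤ)) : Prop where
  zero : 0 ∈ A
  half : ∀ p ∈ A, 0 ≤ p i
  conn : ∀ v ∈ A, ReflTransGen (fun p q => q ∈ A ∧ ∃ t : Dir d, q = p + vec t) 0 v

/-- levels and parent directions -/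
structure Lev (i : Fin d) (A : Finset (Fin d → ℤ)) where
  l : (Fin d → ℤ) → ℕ
  s : (Fin d → ℤ) → Dir d
  s0 : s 0 = (i, true)
  par : ∀ v ∈ A, v ≠ 0 → v - vec (s v) ∈ A ∧ l (v - vec (s v)) + 1 = l v
  min : ∀ v ∈ A, v ≠ 0 → ∀ t, v - vec t ∈ A → l (v - vec t) + 1 = l v → (s v).1 ≤ t.1
  lip : ∀ v ∈ A, ∀ t, v + vec t ∈ A → l (v + vec t) ≤ l v + 1

/-- walks of a given length -/
def Rk (A : Finset (Fin d → ℤ)) : ℕ → (Fin d → ℤ) → Prop
  | 0, v => v = 0
  | k + 1, v => v ∈ A ∧ ∃ t : Dir d, Rk A k (v - vec t)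

theorem Good.lev {i : Fin d} {A : Finset (Fin d → ℤ)} (g : Good i A) : Nonempty (Lev i A) := by
  have ex : ∀ v ∈ A, ∃ k, Rk A k v := fun v hv => by
    induction g.conn v hv with
    | refl => exact ⟨0, rfl⟩
    | tail _ h ih =>
      rename_i p q hp
      obtain ⟨hq, t, rfl⟩ := h
      have hp' : p ∈ A := by
        cases hp with
        | refl => exact g.zero
        | tail _ h => exact h.1
      obtain ⟨k, hk⟩ := ih hp'
      exact ⟨k + 1, hq, t, by simpa using hk⟩
  have mem : ∀ k v, Rk A k v → v ∈ A := fun k v h => by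
    cases k with
    | zero => exact (show v = 0 from h) ▸ g.zero
    | succ k => exact h.1
  let l : (Fin d → ℤ) → ℕ := fun v => sInf {k | Rk A k v}
  have l1 : ∀ v ∈ A, Rk A (l v) v := fun v hv => Nat.sInf_mem (ex v hv)
  have lip : ∀ v ∈ A, ∀ t, v + vec t ∈ A → l (v + vec t) ≤ l v + 1 := fun v hv t h =>
    Nat.sInf_le ⟨h, t, by simpa using l1 v hv⟩
  have key : ∀ v, ∃ s : Dir d, (v = 0 → s = (i, true)) ∧ (v ∈ A → v ≠ 0 →
      (v - vec s ∈ A ∧ l (v - vec s) + 1 = l v) ∧
      ∀ t, v - vec t ∈ A → l (v - vec t) + 1 = l v → s.1 ≤ t.1) := by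
    intro v
    by_cases h : v ∈ A ∧ v ≠ 0
    · have h1 := l1 v h.1
      obtain ⟨k, hk⟩ : ∃ k, l v = k + 1 :=
        Nat.exists_eq_succ_of_ne_zero fun e => h.2 (by rw [e] at h1; exact h1)
      rw [hk] at h1
      obtain ⟨-, t, ht⟩ := h1
      have a1 : l (v - vec t) ≤ k := Nat.sInf_le ht
      have a2 := lip _ (mem _ _ ht) t (by simpa using h.1)
      rw [sub_add_cancel] at a2
      obtain ⟨s, hs, hm⟩ := exists_min_image
        (univ.filter fun t : Dir d => v - vec t ∈ A ∧ l (v - vec t) + 1 = l v) (·.1)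
        ⟨t, mem_filter.2 ⟨mem_univ _, mem _ _ ht, by omega⟩⟩
      exact ⟨s, fun e => absurd e h.2, fun _ _ => ⟨(mem_filter.1 hs).2,
        fun u a b => hm u (mem_filter.2 ⟨mem_univ _, a, b⟩)⟩⟩
    · exact ⟨(i, true), fun _ => rfl, fun a b => absurd ⟨a, b⟩ h⟩
  choose s h1 h2 using key
  exact ⟨⟨l, s, h1 0 rfl, fun v a b => (h2 v a b).1, fun v a b => (h2 v a b).2, lip⟩⟩

namespace Lev

variable {i : Fin d} {A : Finset (Fin d → ℤ)} (L : Lev i A)

/-- the step to the parent -/
def up (q p : Fin d → ℤ) : Prop := q ∈ A ∧ q ≠ 0 ∧ p = q - vec (L.s q)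

/-- `b + t` is a child of `b` -/
def child (b : Fin d → ℤ) (t : Dir d) : Prop :=
  b + vec t ∈ A ∧ b + vec t ≠ 0 ∧ L.s (b + vec t) = t

/-- the tree below `b` -/
def build : ∀ h, (Fin d → ℤ) → Tr d h
  | 0, _ => PUnit.unit
  | h + 1, b => fun t => if L.child b t then some (build h (b + vec t)) else none

variable {L}

theorem child.up {b : Fin d → ℤ} {t : Dir d} (h : L.child b t) : L.up (b + vec t) b :=
  ⟨h.1, h.2.1, by rw [h.2.2, add_sub_cancel_right]⟩

theorem up.lev {q p : Fin d → ℤ} (h : L.up q p) : p ∈ A ∧ L.l p + 1 = L.l q :=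
  h.2.2 ▸ L.par q h.1 h.2.1

theorem anc_lt {v b : Fin d → ℤ} (h : ReflTransGen L.up v b) : v = b ∨ L.l b < L.l v := by
  induction h with
  | refl => exact Or.inl rfl
  | tail _ h ih =>
    have := h.lev.2
    rcases ih with rfl | ih <;> right <;> omega

theorem build_some {h : ℕ} {b : Fin d → ℤ} {t : Dir d} {σ : Tr d h}
    (e : L.build (h + 1) b t = some σ) : L.child b t ∧ σ = L.build h (b + vec t) := by
  change (if L.child b t then some (L.build h (b + vec t)) else none) = some σ at e
  split_ifs at e with c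
  exact ⟨c, (Option.some.inj e).symm⟩

theorem size_le (h : ℕ) : ∀ b ∈ A,
    size h (L.build h b) ≤ (A.filter fun v => ReflTransGen L.up v b).card := by
  induction h with
  | zero => exact fun b hb => card_pos.2 ⟨b, mem_filter.2 ⟨hb, .refl⟩⟩
  | succ h ih =>
    intro b hb
    let E : Dir d → Finset (Fin d → ℤ) := fun t =>
      if L.child b t then A.filter fun v => ReflTransGen L.up v (b + vec t) else ∅
    have m : ∀ t v, v ∈ E t → L.child b t ∧ v ∈ A ∧ ReflTransGen L.up v (b + vec t) := by
      intro t v hv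
      simp only [E] at hv
      split_ifs at hv with c
      · exact ⟨c, mem_filter.1 hv⟩
      · simp at hv
    have a1 : size (h + 1) (L.build (h + 1) b) ≤ 1 + ∑ t, (E t).card := by
      change 1 + ∑ t, (if L.child b t then some (L.build h (b + vec t)) else none).elim 0
        (size h) ≤ _
      refine Nat.add_le_add_left (sum_le_sum fun t _ => ?_) 1
      simp only [E]
      split_ifs with c
      · exact ih _ c.1
      · simp
    have a2 : (univ.biUnion E).card = ∑ t, (E t).card := by
      refine card_biUnion fun t _ u _ htu => disjoint_left.2 fun v h1 h2 => htu ?_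
      obtain ⟨c1, -, r1⟩ := m _ _ h1
      obtain ⟨c2, -, r2⟩ := m _ _ h2
      have e1 := c1.up.lev.2
      have e2 := c2.up.lev.2
      have : b + vec t = b + vec u := by
        rcases ReflTransGen.total_of_right_unique
          (fun a b c h h' => h.2.2.trans h'.2.2.symm) r1 r2 with r | r <;>
          rcases anc_lt r with r | r <;> first | exact r | exact r.symm | omega
      rw [← c1.2.2, this, c2.2.2]
    have a3 : b ∉ univ.biUnion E := fun hm => by
      obtain ⟨t, -, ht⟩ := mem_biUnion.1 hm
      obtain ⟨c, -, r⟩ := m _ _ ht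
      have e := c.up.lev.2
      rcases anc_lt r with r | r
      · rw [← r] at e; omega
      · omega
    refine a1.trans ?_
    rw [← a2, add_comm, ← card_insert_of_notMem a3]
    refine card_le_card fun v hv => ?_
    rcases mem_insert.1 hv with rfl | hv
    · exact mem_filter.2 ⟨hb, .refl⟩
    · obtain ⟨t, -, ht⟩ := mem_biUnion.1 hv
      obtain ⟨c, hv, r⟩ := m _ _ ht
      exact mem_filter.2 ⟨hv, r.tail c.up⟩

theorem pts_sub (h : ℕ) : ∀ b ∈ A, ∀ v ∈ pts h (L.build h b), b + v ∈ A := by
  induction h with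
  | zero => intro b hb v hv; rwa [show v = 0 from hv, add_zero]
  | succ h ih =>
    rintro b hb v (rfl | ⟨t, σ, e, hv⟩)
    · rwa [add_zero]
    · obtain ⟨c, rfl⟩ := build_some e
      simpa using ih _ c.1 _ hv

theorem sub_pts (h : ℕ) : ∀ b v, ReflTransGen L.up v b → L.l v ≤ L.l b + h →
    v - b ∈ pts h (L.build h b) := by
  induction h with
  | zero =>
    intro b v r hl
    rcases anc_lt r with rfl | r
    · exact sub_self _
    · omega
  | succ h ih =>
    intro b v r hl
    rcases r.cases_tail with rfl | ⟨c, r, u⟩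
    · exact Or.inl (sub_self _)
    · have e : c = b + vec (L.s c) := by rw [u.2.2, sub_add_cancel]
      have ch : L.child b (L.s c) := by rw [child, ← e]; exact ⟨u.1, u.2.1, rfl⟩
      refine Or.inr ⟨L.s c, L.build h (b + vec (L.s c)), if_pos ch, ?_⟩
      have := u.lev.2
      rw [sub_sub, ← e]
      exact ih c v r (by omega)

theorem anc_zero : ∀ v ∈ A, ReflTransGen L.up v 0 := by
  intro v hv
  induction e : L.l v using Nat.strong_induction_on generalizing v with
  | _ k ih =>
    by_cases h : v = 0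
    · exact h ▸ .refl
    · have := L.par v hv h
      exact .head ⟨hv, h, rfl⟩ (ih _ (by omega) _ this.1 rfl)

theorem valid_build (g : Good i A) (h : ℕ) : ∀ b ∈ A, ∀ F, (∀ t, L.child b t → t ∉ F) →
    valid h (L.build h b) (L.s b) F := by
  induction h with
  | zero => exact fun _ _ _ _ => trivial
  | succ h ih =>
    intro b hb F hF t σ e
    obtain ⟨c, rfl⟩ := build_some e
    refine ⟨hF t c, ?_⟩
    have key := ih _ c.1 (nf t (L.s b) (univ.filter fun u => (L.build (h + 1) b u).isSome))
    rw [c.2.2] at key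
    refine key fun u cu hu => ?_
    have e1 := c.up.lev.2
    have e2 := cu.up.lev.2
    rcases mem_insert.1 hu with rfl | hu
    · rw [vec_ng, add_neg_cancel_right] at e2; omega
    rcases mem_insert.1 hu with rfl | hu
    · by_cases h0 : b = 0
      · subst h0
        have h1 := g.half _ cu.1
        refine cu.2.1 ?_
        obtain ⟨j, x⟩ := t
        rw [L.s0] at h1 ⊢
        by_cases hj : i = j
        · subst hj
          cases x
          · simp [vec, ng] at h1
          · rw [vec_ng]; simp
        · simp [vec, ng, hj] at h1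
      · have p := L.par b hb h0
        have e3 : b + vec t + vec (ng (L.s b)) = b - vec (L.s b) + vec t := by
          rw [vec_ng]; abel
        have := L.lip _ p.1 t (e3 ▸ cu.1)
        rw [e3] at e2
        omega
    · obtain ⟨hu, lt⟩ := mem_filter.1 hu
      obtain ⟨σ, e'⟩ := Option.isSome_iff_exists.1 (mem_filter.1 hu).2
      have c' := (build_some e').1
      have e3 : b + vec t + vec u - vec t = b + vec u := by abel
      have e4 := c'.up.lev.2
      have := L.min _ cu.1 cu.2.1 t (e3 ▸ c'.1) (by rw [e3]; omega)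
      rw [cu.2.2] at this
      exact absurd lt (not_lt.2 this)

end Lev

theorem count_le {z : ℝ} (hz : 0 ≤ z) (hz1 : z ≤ 1) (H : Finset (Dir d) → ℝ) (hH : ∀ F, 0 ≤ H F)
    (hs : ∀ s F, ng s ∈ F → z * ∑ C ∈ Fᶜ.powerset, ∏ t ∈ C, H (nf t s C) ≤ H F) (i : Fin d)
    (n : ℕ) (S : Finset (Finset (Fin d → ℤ))) (hS : ∀ A ∈ S, Good i A ∧ A.card = n) :
    S.card * z ^ n ≤ H {(i, false)} := by
  have L : ∀ A : S, Lev i A.1 := fun A => (hS A.1 A.2).1.lev.some
  let h : ℕ := univ.sup fun A : S => A.1.sup (L A).l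
  let f : S → Tr d h := fun A => (L A).build h 0
  have e : ∀ A : S, (A.1 : Set (Fin d → ℤ)) = pts h (f A) := fun A => by
    refine Set.Subset.antisymm (fun v hv => ?_) fun v hv => ?_
    · have : (L A).l v ≤ h :=
        (le_sup (f := (L A).l) hv).trans (le_sup (f := fun A : S => A.1.sup (L A).l) (mem_univ A))
      simpa using Lev.sub_pts h 0 v (Lev.anc_zero v hv) (by omega)
    · simpa using Lev.pts_sub h 0 (hS _ A.2).1.zero v hv
  have inj : Function.Injective f := fun A B hAB =>
    Subtype.ext (coe_injective (by simp only [e A, e B, hAB]))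
  refine le_trans ?_ (weight_le hz H hH hs h (i, true) {(i, false)} (mem_singleton_self _))
  calc (S.card * z ^ n : ℝ) = ∑ _A : S, z ^ n := by simp
    _ ≤ ∑ A : S, (if valid h (f A) (i, true) {(i, false)} then z ^ size h (f A) else 0) := by
      refine sum_le_sum fun A _ => ?_
      have g := (hS _ A.2).1
      have v : valid h (f A) (i, true) {(i, false)} := by
        rw [← (L A).s0]
        refine Lev.valid_build g h 0 g.zero _ fun t c ht => ?_
        have := g.half _ c.1
        rw [mem_singleton.1 ht] at this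
        simp [vec] at this
      rw [if_pos v]
      refine pow_le_pow_of_le_one hz hz1 ((Lev.size_le h 0 g.zero).trans ?_)
      rw [← (hS _ A.2).2]
      exact card_filter_le _ _
    _ ≤ _ := by
      rw [← sum_image (g := f) (s := univ)
        (f := fun τ => if valid h τ (i, true) {(i, false)} then z ^ size h τ else 0)
        fun a _ b _ hab => inj hab]
      exact sum_le_sum_of_subset_of_nonneg (subset_univ _) fun τ _ _ => by positivity

end

end Pool.Agent.P.MP_d1c5d3_co.PG
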