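import Mathlib

/-! Trees of lattice directions with forbidden sets, and the supersolution bound. -/

set_option autoImplicit false

namespace Pool.Agent.P.MP_d1c5d3_co.PG

open Finset
open scoped Classical

noncomputable section

/-- the `2 d` directions -/
abbrev Dir (d : ℕ) : Type := Fin d × Bool

variable {d : ℕ}

/-- the opposite direction -/
def ng (t : Dir d) : Dir d := (t.1, !t.2)

/-- the unit vector -/
def vec (t : Dir d) : Fin d → ℤ := Pi.single t.1 (if t.2 then 1 else -1)

theorem vec_ng (t : Dir d) : vec (ng t) = -vec t := by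
  obtain ⟨i, b⟩ := t
  cases b <;> simp [vec, ng, Pi.single_neg]

/-- trees of depth at most `h` -/
def Tr (d : ℕ) : ℕ → Type
  | 0 => PUnit
  | h + 1 => Dir d → Option (Tr d h)

instance finTr (d : ℕ) : ∀ h, Fintype (Tr d h)
  | 0 => inferInstanceAs (Fintype PUnit)
  | h + 1 => haveI := finTr d h; inferInstanceAs (Fintype (Dir d → Option (Tr d h)))

/-- the number of vertices -/
def size : ∀ h, Tr d h → ℕ
  | 0, _ => 1
  | h + 1, τ => 1 + ∑ t, (τ t).elim 0 (size h)

/-- the points of the lattice covered by a tree -/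
def pts : ∀ h, Tr d h → Set (Fin d → ℤ)
  | 0, _ => {0}
  | h + 1, τ => {v | v = 0 ∨ ∃ t σ, τ t = some σ ∧ v - vec t ∈ pts h σ}

/-- the forbidden set of the child in direction `t` -/
def nf (t s : Dir d) (C : Finset (Dir d)) : Finset (Dir d) :=
  insert (ng t) (insert (ng s) (C.filter fun u => t.1 < u.1))

/-- the rules of a breadth first tree -/
def valid : ∀ h, Tr d h → Dir d → Finset (Dir d) → Prop
  | 0, _, _, _ => True
  | h + 1, τ, s, F => ∀ t σ, τ t = some σ →
      t ∉ F ∧ valid h σ t (nf t s (univ.filter fun u => (τ u).isSome))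

theorem weight_le {z : ℝ} (hz : 0 ≤ z) (H : Finset (Dir d) → ℝ) (hH : ∀ F, 0 ≤ H F)
    (hs : ∀ s F, ng s ∈ F → z * ∑ C ∈ Fᶜ.powerset, ∏ t ∈ C, H (nf t s C) ≤ H F) :
    ∀ (h : ℕ) (s : Dir d) (F : Finset (Dir d)), ng s ∈ F →
      ∑ τ : Tr d h, (if valid h τ s F then z ^ size h τ else 0) ≤ H F := by
  intro h
  induction h with
  | zero =>
    intro s F hF
    refine le_trans ?_ (hs s F hF)
    have : (1 : ℝ) ≤ ∑ C ∈ Fᶜ.powerset, ∏ t ∈ C, H (nf t s C) := by
      simpa using single_le_sum (f := fun C => ∏ t ∈ C, H (nf t s C))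
        (fun C _ => prod_nonneg fun t _ => hH _) (empty_mem_powerset Fᶜ)
    have e : ∑ τ : Tr d 0, (if valid 0 τ s F then z ^ size 0 τ else 0) = z := by
      change ∑ τ : PUnit, _ = z
      simp [valid, size]
    rw [e]
    exact le_mul_of_one_le_right hz this
  | succ h ih =>
    intro s F hF
    refine le_trans ?_ (hs s F hF)
    let w : Finset (Dir d) → Dir d → Option (Tr d h) → ℝ := fun C t o =>
      o.elim (if t ∈ C then 0 else 1) fun σ =>
        if t ∈ C then (if valid h σ t (nf t s C) then z ^ size h σ else 0) else 0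
    have w0 : ∀ C t o, 0 ≤ w C t o := by
      intro C t o
      cases o <;> simp only [w, Option.elim] <;> split_ifs <;> positivity
    have a1 : ∀ τ : Dir d → Option (Tr d h),
        (if valid (h + 1) τ s F then z ^ size (h + 1) τ else 0) ≤
          z * ∑ C ∈ Fᶜ.powerset, ∏ t, w C t (τ t) := by
      intro τ
      have p0 : ∀ C ∈ Fᶜ.powerset, 0 ≤ ∏ t, w C t (τ t) :=
        fun C _ => prod_nonneg fun t _ => w0 _ _ _
      split_ifs with hv
      · have m : (univ.filter fun u => (τ u).isSome) ∈ Fᶜ.powerset := by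
          refine mem_powerset.2 fun u hu => mem_compl.2 ?_
          obtain ⟨σ, e⟩ := Option.isSome_iff_exists.1 (mem_filter.1 hu).2
          exact (hv u σ e).1
        refine le_trans (le_of_eq ?_) (mul_le_mul_of_nonneg_left (single_le_sum p0 m) hz)
        change z ^ (1 + ∑ t, (τ t).elim 0 (size h)) = _
        rw [pow_add, pow_one, ← prod_pow_eq_pow_sum]
        refine congrArg _ (prod_congr rfl fun t _ => ?_)
        cases e : τ t with
        | none => simp [w, e]
        | some σ => simp [w, e, (hv t σ e).2]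
      · exact mul_nonneg hz (sum_nonneg p0)
    change ∑ τ : Dir d → Option (Tr d h),
      (if valid (h + 1) τ s F then z ^ size (h + 1) τ else 0) ≤ _
    refine (sum_le_sum fun τ _ => a1 τ).trans ?_
    rw [← mul_sum, sum_comm]
    refine mul_le_mul_of_nonneg_left (sum_le_sum fun C _ => ?_) hz
    have a2 : ∑ τ : Dir d → Option (Tr d h), ∏ t, w C t (τ t) = ∏ t, ∑ o, w C t o := by
      rw [prod_univ_sum, Fintype.piFinset_univ]
    rw [a2, ← prod_filter_mul_prod_filter_not univ (· ∈ C), filter_mem_eq_inter, univ_inter,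
      prod_eq_one (s := univ.filter (· ∉ C)), mul_one]
    · refine prod_le_prod (fun t _ => sum_nonneg fun o _ => w0 _ _ _) fun t ht => ?_
      rw [Fintype.sum_option]
      simpa [w, ht] using ih t (nf t s C) (mem_insert_self _ _)
    · intro t ht
      rw [Fintype.sum_option]
      simp [w, (mem_filter.1 ht).2]

end

end Pool.Agent.P.MP_d1c5d3_co.PG
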